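import Pool.Agent.H57.KH.D
import Pool.Agent.H57.KH.F

/-!
# Banach spaces on which every compact operator is nuclear: factorization through Hilbert spaces
-/

open Filter Topology
open scoped lp

namespace Pool.Agent.Results.MP_d58ff5_an.HilbertFactorization

universe v w

/-- `T` is nuclear: `T x = sum_n f_n(x) y_n` with `sum_n ||f_n|| ||y_n||` finite. -/
def Nuclear {𝕜 : Type*} [RCLike 𝕜] {X : Type*} [NormedAddCommGroup X] [NormedSpace 𝕜 X]
    (T : X →L[𝕜] X) : Prop :=
  ∃ (f : ℕ → (X →L[𝕜] 𝕜)) (y : ℕ → X), Summable (fun n => ‖f n‖ * ‖y n‖) ∧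
    ∀ x : X, HasSum (fun n => (f n x) • y n) (T x)

/-- every compact operator on `X` is nuclear -/
def KN (𝕜 : Type*) [RCLike 𝕜] (X : Type*) [NormedAddCommGroup X] [NormedSpace 𝕜 X] : Prop :=
  ∀ T : X →L[𝕜] X, IsCompactOperator T → Nuclear T

/-- `F` has finite rank: its values lie in a finite-dimensional subspace -/
def FiniteRank {𝕜 : Type*} [RCLike 𝕜] {X : Type*} [NormedAddCommGroup X] [NormedSpace 𝕜 X]
    (F : X →L[𝕜] X) : Prop :=
  ∃ W : Submodule 𝕜 X, FiniteDimensional 𝕜 W ∧ ∀ x, F x ∈ W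

/-- `T` is approximable: it is a limit in norm of operators of finite rank -/
def Approximable {𝕜 : Type*} [RCLike 𝕜] {X : Type*} [NormedAddCommGroup X] [NormedSpace 𝕜 X]
    (T : X →L[𝕜] X) : Prop :=
  ∀ ε : ℝ, 0 < ε → ∃ F : X →L[𝕜] X, FiniteRank F ∧ ‖T - F‖ ≤ ε

/-- every approximable operator on `X` is nuclear -/
def AN (𝕜 : Type*) [RCLike 𝕜] (X : Type*) [NormedAddCommGroup X] [NormedSpace 𝕜 X] : Prop :=
  ∀ T : X →L[𝕜] X, Approximable T → Nuclear T

/-- `T` factors through a Hilbert space `H`: it is a product of bounded operators `X → H → X` -/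
def ThroughHilbert {𝕜 : Type*} [RCLike 𝕜] {X : Type*} [NormedAddCommGroup X] [NormedSpace 𝕜 X]
    (T : X →L[𝕜] X) : Prop :=
  ∃ (H : Type w) (_ : NormedAddCommGroup H) (_ : InnerProductSpace 𝕜 H) (_ : CompleteSpace H)
    (A : X →L[𝕜] H) (B : H →L[𝕜] X), T = B.comp A

/-- `Z` has a shrinking approximating sequence: operators `P_n` of finite rank on `Z` such that
`ψ ∘ P_n → ψ` in norm for every bounded functional `ψ` on `Z` -/
def Shrinking (𝕜 : Type*) [RCLike 𝕜] (Z : Type*) [NormedAddCommGroup Z] [NormedSpace 𝕜 Z] :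
    Prop :=
  ∃ P : ℕ → (Z →L[𝕜] Z), (∀ n, FiniteRank (P n)) ∧
    ∀ ψ : Z →L[𝕜] 𝕜, Tendsto (fun n => ‖ψ.comp (P n) - ψ‖) atTop (𝓝 0)

/-- `T` factors through some normed space with a shrinking approximating sequence -/
def ThroughShrinking {𝕜 : Type*} [RCLike 𝕜] {X : Type*} [NormedAddCommGroup X] [NormedSpace 𝕜 X]
    (T : X →L[𝕜] X) : Prop :=
  ∃ (Z : Type w) (_ : NormedAddCommGroup Z) (_ : NormedSpace 𝕜 Z) (A : X →L[𝕜] Z)
    (B : Z →L[𝕜] X), Shrinking 𝕜 Z ∧ T = B.comp A

/-- approximable operators are compact -/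
lemma Approximable.compact {𝕜 : Type*} [RCLike 𝕜] {X : Type*} [NormedAddCommGroup X]
    [NormedSpace 𝕜 X] [CompleteSpace X] {T : X →L[𝕜] X} (hT : Approximable T) :
    IsCompactOperator T := by
  have hcl : IsClosed {T : X →L[𝕜] X | IsCompactOperator T} :=
    isClosed_setOfPred_isCompactOperator
  refine hcl.closure_subset (Metric.mem_closure_iff.2 fun ε hε => ?_)
  obtain ⟨F, hF, h⟩ := hT (ε / 2) (half_pos hε)
  refine ⟨F, Pool.Agent.H57.KH.FR.compact hF, ?_⟩
  rw [dist_eq_norm]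
  linarith

/-- compact operators that factor through a space with a shrinking approximating sequence are
approximable -/
lemma approximable_of_shrinking {𝕜 : Type*} [RCLike 𝕜] {X : Type*} [NormedAddCommGroup X]
    [NormedSpace 𝕜 X] {T : X →L[𝕜] X} (hT : IsCompactOperator T)
    {Z : Type*} [NormedAddCommGroup Z] [NormedSpace 𝕜 Z] (hZ : Shrinking 𝕜 Z)
    (A : X →L[𝕜] Z) (B : Z →L[𝕜] X) (h : T = B.comp A) : Approximable T := by
  intro ε hε
  obtain ⟨P, hP, hlim⟩ := hZ
  subst h
  exact Pool.Agent.H57.KH.approx_of_shrinking P hP hlim A B hT hε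

/-- Let `X` be a Banach space. (1) Every compact operator on `X` is nuclear if and only if every
approximable operator on `X` is nuclear and every compact operator on `X` factors through a
Hilbert space. (2) If every approximable operator on `X` is nuclear and every compact operator on
`X` factors through a Hilbert space or through a normed space with a shrinking approximating
sequence, then every compact operator on `X` is nuclear. -/
theorem result (𝕜 : Type v) [RCLike 𝕜] (X : Type*) [NormedAddCommGroup X] [NormedSpace 𝕜 X]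
    [CompleteSpace X] :
    (KN 𝕜 X ↔
      AN 𝕜 X ∧ ∀ T : X →L[𝕜] X, IsCompactOperator T → ThroughHilbert.{v} T) ∧
    (AN 𝕜 X →
      (∀ T : X →L[𝕜] X, IsCompactOperator T → ThroughHilbert.{w} T ∨ ThroughShrinking.{w} T) →
      KN 𝕜 X) := by
  refine ⟨⟨fun h => ⟨fun T hT => h T hT.compact, fun T hT => ?_⟩, ?_⟩, ?_⟩
  · obtain ⟨f, y, hs, hx⟩ := h T hT
    obtain ⟨A, B, h⟩ := Pool.Agent.H57.KH.factor_of_nuclear T f y hs hx
    exact ⟨ℓ²(ℕ, 𝕜), inferInstance, inferInstance, inferInstance, A, B, h⟩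
  · rintro ⟨h1, h2⟩ T hT
    obtain ⟨H, i1, i2, i3, A, B, rfl⟩ := h2 T hT
    exact h1 _ fun ε hε => Pool.Agent.H57.KH.approx_of_hilbert A B hT hε
  · intro h1 h2 T hT
    rcases h2 T hT with ⟨H, i1, i2, i3, A, B, rfl⟩ | ⟨Z, i1, i2, A, B, hZ, h⟩
    · exact h1 _ fun ε hε => Pool.Agent.H57.KH.approx_of_hilbert A B hT hε
    · exact h1 T (approximable_of_shrinking hT hZ A B h)

end Pool.Agent.Results.MP_d58ff5_an.HilbertFactorization
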