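import Pool.Agent.H57.KN.F
import Pool.Agent.H57.KN.H

/-!
# Banach spaces on which every compact operator has nuclear adjoint
-/

namespace Pool.Agent.Results.MP_d58ff5_an.NuclearAdjoint

/-- `T` is nuclear: `T x = sum_n f_n(x) y_n` with `sum_n ||f_n|| ||y_n||` finite. -/
def Nuclear {𝕜 : Type*} [RCLike 𝕜] {X : Type*} [NormedAddCommGroup X] [NormedSpace 𝕜 X]
    (T : X →L[𝕜] X) : Prop :=
  ∃ (f : ℕ → (X →L[𝕜] 𝕜)) (y : ℕ → X), Summable (fun n => ‖f n‖ * ‖y n‖) ∧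
    ∀ x : X, HasSum (fun n => (f n x) • y n) (T x)

/-- every compact operator on `X` is nuclear -/
def KN (𝕜 : Type*) [RCLike 𝕜] (X : Type*) [NormedAddCommGroup X] [NormedSpace 𝕜 X] : Prop :=
  ∀ T : X →L[𝕜] X, IsCompactOperator T → Nuclear T

/-- the size of a representation -/
lemma nuclear_iff {𝕜 : Type*} [RCLike 𝕜] {X : Type*} [NormedAddCommGroup X] [NormedSpace 𝕜 X]
    (T : X →L[𝕜] X) : Nuclear T ↔ ∃ M : ℝ, Pool.Agent.H57.KN.NucB M T := by
  constructor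
  · rintro ⟨f, y, h1, h2⟩
    exact ⟨_, f, y, h1, le_rfl, h2⟩
  · rintro ⟨M, f, y, h1, -, h2⟩
    exact ⟨f, y, h1, h2⟩

/-- Let `X` be a Banach space with dual `X* = (X →L[𝕜] 𝕜)`. (1) If the adjoint of every compact
operator on `X` is nuclear, then every compact operator on `X` is nuclear. (2) If every compact
operator on `X*` is nuclear, then every compact operator on `X` is nuclear. -/
theorem result (𝕜 : Type*) [RCLike 𝕜] (X : Type*) [NormedAddCommGroup X] [NormedSpace 𝕜 X]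
    [CompleteSpace X] :
    ((∀ T : X →L[𝕜] X, IsCompactOperator T →
      ∀ S : (X →L[𝕜] 𝕜) →L[𝕜] (X →L[𝕜] 𝕜), (∀ f, S f = f.comp T) → Nuclear S) → KN 𝕜 X) ∧
    (KN 𝕜 (X →L[𝕜] 𝕜) → KN 𝕜 X) := by
  have h1 : (∀ T : X →L[𝕜] X, IsCompactOperator T →
      ∀ S : (X →L[𝕜] 𝕜) →L[𝕜] (X →L[𝕜] 𝕜), (∀ f, S f = f.comp T) → Nuclear S) → KN 𝕜 X := by
    intro h T hT
    rw [nuclear_iff]
    exact Pool.Agent.H57.KN.adj (fun T hT S hS => (nuclear_iff S).1 (h T hT S hS)) T hT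
  exact ⟨h1, fun h => h1 fun T hT S hS => h S (Pool.Agent.H57.KN.schauder T hT S hS)⟩

end Pool.Agent.Results.MP_d58ff5_an.NuclearAdjoint
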