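import Pool.Agent.H21.PTy.Fin

/-!
# Banach spaces on which every compact operator is nuclear are of Pisier type
-/

open Module

namespace Pool.Agent.Results.MP_d58ff5_an.PisierType

/-- `T` is nuclear: `T x = sum_n f_n(x) y_n` with `sum_n ||f_n|| ||y_n||` finite. -/
def Nuclear {𝕜 : Type*} [RCLike 𝕜] {X : Type*} [NormedAddCommGroup X] [NormedSpace 𝕜 X]
    (T : X →L[𝕜] X) : Prop :=
  ∃ (f : ℕ → (X →L[𝕜] 𝕜)) (y : ℕ → X), Summable (fun n => ‖f n‖ * ‖y n‖) ∧
    ∀ x : X, HasSum (fun n => (f n x) • y n) (T x)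

/-- `S` is a pointwise limit of compact operators of norm at most `M`: for every finite set of
vectors and every `ε > 0` some compact operator of norm at most `M` is `ε`-close to `S` there. -/
def LimitOfCompact {𝕜 : Type*} [RCLike 𝕜] {X : Type*} [NormedAddCommGroup X] [NormedSpace 𝕜 X]
    (M : ℝ) (S : X →L[𝕜] X) : Prop :=
  ∀ (F : Finset X) (ε : ℝ), 0 < ε → ∃ T : X →L[𝕜] X, IsCompactOperator T ∧ ‖T‖ ≤ M ∧
    ∀ x ∈ F, ‖T x - S x‖ ≤ ε

/-- the 2-summing bound for limits of compact operators -/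
lemma summing {𝕜 : Type*} [RCLike 𝕜] {X : Type*} [NormedAddCommGroup X] [NormedSpace 𝕜 X]
    {C : ℝ} (hC : 0 < C)
    (hun : ∀ T : X →L[𝕜] X, IsCompactOperator T → ∀ (m : ℕ) (x : Fin m → X),
      Pool.Agent.H21.PTy.Wk 𝕜 x → ∑ i, ‖T (x i)‖ ^ 2 ≤ (C * ‖T‖) ^ 2)
    {M : ℝ} {S : X →L[𝕜] X} (hS : LimitOfCompact M S) :
    0 ≤ M ∧ ∀ (m : ℕ) (x : Fin m → X), Pool.Agent.H21.PTy.Wk 𝕜 x →
      ∑ i, ‖S (x i)‖ ^ 2 ≤ (C * M) ^ 2 := by
  classical
  have hM : 0 ≤ M := by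
    obtain ⟨T, _, hT, _⟩ := hS ∅ 1 one_pos
    exact (norm_nonneg _).trans hT
  refine ⟨hM, ?_⟩
  intro m x hx
  choose T hTc hTn hTx using fun k : ℕ =>
    hS (Finset.univ.image x) (1 / ((k : ℝ) + 1)) (by positivity)
  have h1 : ∀ i, Filter.Tendsto (fun k => T k (x i)) Filter.atTop (nhds (S (x i))) := by
    intro i
    rw [tendsto_iff_norm_sub_tendsto_zero]
    refine squeeze_zero (fun k => norm_nonneg _) (fun k => ?_)
      tendsto_one_div_add_atTop_nhds_zero_nat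
    exact hTx k _ (Finset.mem_image_of_mem _ (Finset.mem_univ i))
  have h2 : Filter.Tendsto (fun k => ∑ i, ‖T k (x i)‖ ^ 2) Filter.atTop
      (nhds (∑ i, ‖S (x i)‖ ^ 2)) :=
    tendsto_finset_sum _ fun i _ => ((h1 i).norm.pow 2)
  refine le_of_tendsto h2 (Filter.Eventually.of_forall fun k => ?_)
  refine (hun (T k) (hTc k) m x hx).trans ?_
  exact pow_le_pow_left₀ (by positivity) (mul_le_mul_of_nonneg_left (hTn k) hC.le) 2

/-- weak sequences of a subspace -/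
lemma wk_coe {𝕜 : Type*} [RCLike 𝕜] {X : Type*} [NormedAddCommGroup X] [NormedSpace 𝕜 X]
    (E : Submodule 𝕜 X) {m : ℕ} {x : Fin m → E} (hx : Pool.Agent.H21.PTy.Wk 𝕜 x) :
    Pool.Agent.H21.PTy.Wk 𝕜 (fun i => (x i : X)) := by
  intro a
  have h1 := hx a
  have h2 : ‖∑ i, a i • (x i : X)‖ = ‖∑ i, a i • x i‖ := by
    rw [← Submodule.norm_coe]
    congr 1
    push_cast
    rfl
  rw [h2]
  exact h1

/-- (1) of `result` -/
lemma main {𝕜 : Type*} [RCLike 𝕜] {X : Type*} [NormedAddCommGroup X] [NormedSpace 𝕜 X]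
    {p : ℝ} {S : X →L[𝕜] X} (hp : 0 ≤ p)
    (hS : ∀ (m : ℕ) (x : Fin m → X), Pool.Agent.H21.PTy.Wk 𝕜 x →
      ∑ i, ‖S (x i)‖ ^ 2 ≤ p ^ 2)
    (E : Submodule 𝕜 X) [FiniteDimensional 𝕜 E] (c : ℝ) (hc : 0 ≤ c)
    (hE : ∀ x ∈ E, c * ‖x‖ ≤ ‖S x‖) : c * √(finrank 𝕜 E) ≤ 32 * p := by
  obtain ⟨n, hn⟩ : ∃ n : ℕ, finrank 𝕜 E = n := ⟨_, rfl⟩
  obtain ⟨x, hx, hx2⟩ := Pool.Agent.H21.PTy.exists_vectors (𝕜 := 𝕜) (E := E) hn
  rw [hn]
  have hsum := hS n _ (wk_coe E hx)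
  have h1 : c ^ 2 * (n / 12) ≤ p ^ 2 := by
    calc c ^ 2 * (n / 12) ≤ c ^ 2 * ∑ i, ‖x i‖ ^ 2 :=
          mul_le_mul_of_nonneg_left hx2 (by positivity)
      _ = ∑ i, (c * ‖(x i : X)‖) ^ 2 := by
          rw [Finset.mul_sum]
          refine Finset.sum_congr rfl fun i _ => ?_
          rw [mul_pow, Submodule.norm_coe]
      _ ≤ ∑ i, ‖S (x i : X)‖ ^ 2 := by
          refine Finset.sum_le_sum fun i _ => ?_
          exact pow_le_pow_left₀ (by positivity) (hE _ (x i).2) 2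
      _ ≤ p ^ 2 := hsum
  have h2 : (c * √n) ^ 2 ≤ (32 * p) ^ 2 := by
    rw [mul_pow, Real.sq_sqrt (Nat.cast_nonneg n)]
    nlinarith [sq_nonneg p]
  exact le_of_sq_le_sq h2 (by positivity)

/-- (2) of `result` -/
lemma main_det {𝕜 : Type*} [RCLike 𝕜] {X : Type*} [NormedAddCommGroup X] [NormedSpace 𝕜 X]
    {p : ℝ} {S : X →L[𝕜] X} (hp : 0 ≤ p)
    (hS : ∀ (m : ℕ) (x : Fin m → X), Pool.Agent.H21.PTy.Wk 𝕜 x →
      ∑ i, ‖S (x i)‖ ^ 2 ≤ p ^ 2)
    (F : Submodule 𝕜 X) [FiniteDimensional 𝕜 F] (hF : ∀ x ∈ F, (S : X →ₗ[𝕜] X) x ∈ F) :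
    √(finrank 𝕜 F) ^ (finrank 𝕜 F) * ‖LinearMap.det ((S : X →ₗ[𝕜] X).restrict hF)‖ ≤
      (32 * p) ^ (finrank 𝕜 F) := by
  have h1 := Pool.Agent.H21.PTy.det_le ((S : X →ₗ[𝕜] X).restrict hF) p hp (by
    intro m x hx
    exact hS m _ (wk_coe F hx))
  have h2 : (√(finrank 𝕜 F) ^ (finrank 𝕜 F) *
      ‖LinearMap.det ((S : X →ₗ[𝕜] X).restrict hF)‖) ^ 2 ≤
      ((32 * p) ^ (finrank 𝕜 F)) ^ 2 := by
    rw [mul_pow, ← pow_mul, mul_comm (finrank 𝕜 F) 2, pow_mul, Real.sq_sqrt (Nat.cast_nonneg _),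
      ← pow_mul (32 * p), mul_comm (finrank 𝕜 F) 2]
    exact h1
  exact le_of_sq_le_sq h2 (by positivity)

/-- operators of finite rank are compact -/
lemma isCompact_of_range {𝕜 : Type*} [RCLike 𝕜] {X : Type*} [NormedAddCommGroup X]
    [NormedSpace 𝕜 X] (P : X →L[𝕜] X)
    (h : FiniteDimensional 𝕜 (LinearMap.range (P : X →ₗ[𝕜] X))) : IsCompactOperator P := by
  haveI : ProperSpace (LinearMap.range (P : X →ₗ[𝕜] X)) := FiniteDimensional.proper 𝕜 _
  have h1 : IsCompactOperator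
      (id : (LinearMap.range (P : X →ₗ[𝕜] X)) → (LinearMap.range (P : X →ₗ[𝕜] X))) :=
    isCompactOperator_id
  have h2 := h1.comp_clm (P.codRestrict (LinearMap.range (P : X →ₗ[𝕜] X)) (fun x => ⟨x, rfl⟩))
  exact h2.clm_comp (Submodule.subtypeL (LinearMap.range (P : X →ₗ[𝕜] X)))

/-- **Spaces with `K(X) = N(X)` are of Pisier type.** -/
theorem result {𝕜 : Type*} [RCLike 𝕜] {X : Type*} [NormedAddCommGroup X] [NormedSpace 𝕜 X]
    [CompleteSpace X] (hnuc : ∀ T : X →L[𝕜] X, IsCompactOperator T → Nuclear T) :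
    ∃ C : ℝ, 0 < C ∧
      -- (1) operators bounded below on a finite-dimensional subspace
      (∀ (M : ℝ) (S : X →L[𝕜] X), LimitOfCompact M S →
        ∀ (E : Submodule 𝕜 X) [FiniteDimensional 𝕜 E] (c : ℝ), 0 ≤ c →
          (∀ x ∈ E, c * ‖x‖ ≤ ‖S x‖) → c * √(finrank 𝕜 E) ≤ C * M) ∧
      -- (2) determinants on invariant subspaces
      (∀ (M : ℝ) (S : X →L[𝕜] X), LimitOfCompact M S →
        ∀ (F : Submodule 𝕜 X) [FiniteDimensional 𝕜 F] (hF : ∀ x ∈ F, (S : X →ₗ[𝕜] X) x ∈ F),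
          √(finrank 𝕜 F) ^ (finrank 𝕜 F) * ‖LinearMap.det ((S : X →ₗ[𝕜] X).restrict hF)‖ ≤
            (C * M) ^ (finrank 𝕜 F)) ∧
      -- (3) projections of finite rank
      (∀ P : X →L[𝕜] X, P ∘L P = P → FiniteDimensional 𝕜 (LinearMap.range (P : X →ₗ[𝕜] X)) →
        √(finrank 𝕜 (LinearMap.range (P : X →ₗ[𝕜] X))) ≤ C * ‖P‖) ∧
      -- (4) complemented subspaces with the bounded compact approximation property
      (∀ (M : ℝ) (P : X →L[𝕜] X), P ∘L P = P →
        (∀ (F : Finset X) (ε : ℝ), 0 < ε → ∃ T : X →L[𝕜] X, IsCompactOperator T ∧ ‖T‖ ≤ M ∧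
          ∀ x ∈ F, ‖T (P x) - P x‖ ≤ ε) →
        FiniteDimensional 𝕜 (LinearMap.range (P : X →ₗ[𝕜] X))) ∧
      -- (5) copies of `l_oo^n`
      (∀ (n : ℕ) (lam : ℝ) (j : (Fin n → 𝕜) →L[𝕜] X),
        (∀ a, ‖a‖ ≤ ‖j a‖) → (∀ a, ‖j a‖ ≤ lam * ‖a‖) → (n : ℝ) ≤ (C * lam) ^ 2) ∧
      -- (6) quotients `l_1^n`
      (∀ (n : ℕ) (lam : ℝ) (q : X →L[𝕜] (Fin n → 𝕜)),
        (∀ x, ∑ i, ‖q x i‖ ≤ ‖x‖) → (∀ a, ∃ x, q x = a ∧ ‖x‖ ≤ lam * ∑ i, ‖a i‖) →
        (n : ℝ) ≤ (C * lam) ^ 2) := by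
  obtain ⟨C0, hC0, hun⟩ := Pool.Agent.H21.PTy.exists_uniform (𝕜 := 𝕜) (X := X) hnuc
  obtain ⟨C, hCeq⟩ : ∃ C : ℝ, C = 32 * C0 := ⟨_, rfl⟩
  have hC : 0 < C := by rw [hCeq]; positivity
  have h : ∀ (M : ℝ) (S : X →L[𝕜] X), LimitOfCompact M S →
        ∀ (E : Submodule 𝕜 X) [FiniteDimensional 𝕜 E] (c : ℝ), 0 ≤ c →
          (∀ x ∈ E, c * ‖x‖ ≤ ‖S x‖) → c * √(finrank 𝕜 E) ≤ C * M := by
    intro M S hS E _ c hc hE
    obtain ⟨hM, hsum⟩ := summing hC0 hun hS
    have := main (by positivity) hsum E c hc hE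
    rw [hCeq, mul_assoc]
    exact this
  have hdet : ∀ (M : ℝ) (S : X →L[𝕜] X), LimitOfCompact M S →
        ∀ (F : Submodule 𝕜 X) [FiniteDimensional 𝕜 F] (hF : ∀ x ∈ F, (S : X →ₗ[𝕜] X) x ∈ F),
          √(finrank 𝕜 F) ^ (finrank 𝕜 F) * ‖LinearMap.det ((S : X →ₗ[𝕜] X).restrict hF)‖ ≤
            (C * M) ^ (finrank 𝕜 F) := by
    intro M S hS F _ hF
    obtain ⟨hM, hsum⟩ := summing hC0 hun hS
    have := main_det (by positivity) hsum F hF
    rw [hCeq, mul_assoc]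
    exact this
  have hcomp : ∀ T : X →L[𝕜] X, IsCompactOperator T → LimitOfCompact ‖T‖ T := by
    intro T hT F ε hε
    exact ⟨T, hT, le_rfl, fun x _ => by simpa using hε.le⟩
  have hproj : ∀ (M : ℝ) (P : X →L[𝕜] X), P ∘L P = P → LimitOfCompact M P →
      ∀ (E : Submodule 𝕜 X) [FiniteDimensional 𝕜 E], E ≤ LinearMap.range (P : X →ₗ[𝕜] X) →
        √(finrank 𝕜 E) ≤ C * M := by
    intro M P hP hPM E _ hE
    have h1 := h M P hPM E 1 zero_le_one (by
      intro x hx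
      obtain ⟨z, hz⟩ := hE hx
      have h2 : P x = x := by
        have h3 : P (P z) = P z := by
          have := congrArg (fun Q : X →L[𝕜] X => Q z) hP
          exact this
        have h4 : P z = x := hz
        rw [h4] at h3
        exact h3
      rw [h2, one_mul])
    rw [one_mul] at h1
    exact h1
  -- projections onto a range of dimension n
  have hpr : ∀ (n : ℕ) (lam : ℝ) (P : X →L[𝕜] X) (R : Submodule 𝕜 X), P ∘L P = P →
      LinearMap.range (P : X →ₗ[𝕜] X) = R → FiniteDimensional 𝕜 R → finrank 𝕜 R = n →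
      ‖P‖ ≤ lam → (n : ℝ) ≤ (C * lam) ^ 2 := by
    intro n lam P R hP hR hfd hfr hPn
    have hc : IsCompactOperator P := isCompact_of_range P (by rw [hR]; exact hfd)
    have h1 := hproj ‖P‖ P hP (hcomp P hc) R hR.ge
    rw [hfr] at h1
    have h2 : (√(n : ℝ)) ^ 2 ≤ (C * lam) ^ 2 := by
      apply pow_le_pow_left₀ (Real.sqrt_nonneg _)
      exact h1.trans (mul_le_mul_of_nonneg_left hPn hC.le)
    rw [Real.sq_sqrt (Nat.cast_nonneg n)] at h2
    exact h2
  refine ⟨C, hC, h, hdet, ?_, ?_, ?_, ?_⟩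
  · intro P hP hfin
    have hc : IsCompactOperator P := isCompact_of_range P hfin
    exact hproj ‖P‖ P hP (hcomp P hc) _ le_rfl
  · intro M P hP happ
    have hlim : LimitOfCompact (M * ‖P‖) P := by
      intro F ε hε
      obtain ⟨T, hTc, hTn, hTx⟩ := happ F ε hε
      refine ⟨T ∘L P, hTc.comp_clm P, ?_, hTx⟩
      exact (T.opNorm_comp_le P).trans (mul_le_mul_of_nonneg_right hTn (norm_nonneg _))
    by_contra hinf
    obtain ⟨k, hk⟩ := exists_nat_gt ((C * (M * ‖P‖)) ^ 2)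
    have hrk : (k : Cardinal) ≤ Module.rank 𝕜 (LinearMap.range (P : X →ₗ[𝕜] X)) := by
      have h1 : Cardinal.aleph0 ≤ Module.rank 𝕜 (LinearMap.range (P : X →ₗ[𝕜] X)) := by
        by_contra hlt
        push Not at hlt
        exact hinf (Module.rank_lt_aleph0_iff.mp hlt)
      exact (Cardinal.natCast_le_aleph0).trans h1
    obtain ⟨v, hv⟩ := Module.le_rank_iff.mp hrk
    have hv' : LinearIndependent 𝕜 (fun i => (v i : X)) :=
      hv.map' (Submodule.subtype _) (Submodule.ker_subtype _)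
    have hfr : finrank 𝕜 (Submodule.span 𝕜 (Set.range fun i => (v i : X))) = k := by
      rw [finrank_span_eq_card hv', Fintype.card_fin]
    haveI : FiniteDimensional 𝕜 (Submodule.span 𝕜 (Set.range fun i => (v i : X))) :=
      FiniteDimensional.span_of_finite 𝕜 (Set.finite_range _)
    have h2 := hproj (M * ‖P‖) P hP hlim
      (Submodule.span 𝕜 (Set.range fun i => (v i : X))) (by
        rw [Submodule.span_le]
        rintro _ ⟨i, rfl⟩
        exact (v i).2)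
    rw [hfr] at h2
    have h3 : (√(k : ℝ)) ^ 2 ≤ (C * (M * ‖P‖)) ^ 2 :=
      pow_le_pow_left₀ (Real.sqrt_nonneg _) h2 2
    rw [Real.sq_sqrt (Nat.cast_nonneg k)] at h3
    linarith
  · intro n lam j hj1 hj2
    rcases Nat.eq_zero_or_pos n with h0 | hpos
    · subst h0
      simp only [Nat.cast_zero]
      positivity
    have hjinj : Function.Injective j := by
      rw [injective_iff_map_eq_zero]
      intro a ha
      have h1 := hj1 a
      rw [ha, norm_zero] at h1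
      exact norm_le_zero_iff.mp h1
    -- the coordinate functionals on the range of j
    let R : Submodule 𝕜 X := LinearMap.range (j : (Fin n → 𝕜) →ₗ[𝕜] X)
    let e : (Fin n → 𝕜) ≃ₗ[𝕜] R := LinearEquiv.ofInjective (j : (Fin n → 𝕜) →ₗ[𝕜] X) hjinj
    have hext : ∀ i : Fin n, ∃ g : X →L[𝕜] 𝕜, (∀ a, g (j a) = a i) ∧ ‖g‖ ≤ 1 := by
      intro i
      let gl : R →ₗ[𝕜] 𝕜 := (LinearMap.proj i).comp (e.symm : R →ₗ[𝕜] (Fin n → 𝕜))
      have hbd : ∀ z : R, ‖gl z‖ ≤ 1 * ‖z‖ := by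
        intro z
        obtain ⟨a, rfl⟩ := e.surjective z
        have h1 : gl (e a) = a i := by
          simp [gl]
        rw [h1, one_mul]
        have h2 : ‖e a‖ = ‖j a‖ := rfl
        rw [h2]
        exact (norm_le_pi_norm a i).trans (hj1 a)
      obtain ⟨g, hg1, hg2⟩ := exists_extension_norm_eq R (gl.mkContinuous 1 hbd)
      refine ⟨g, ?_, ?_⟩
      · intro a
        have h1 := hg1 (e a)
        have h2 : ((e a : R) : X) = j a := rfl
        rw [h2] at h1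
        rw [h1]
        show gl (e a) = a i
        simp [gl]
      · rw [hg2]
        exact gl.mkContinuous_norm_le zero_le_one hbd
    choose g hg1 hg2 using hext
    let G : X →L[𝕜] (Fin n → 𝕜) := ContinuousLinearMap.pi g
    let P : X →L[𝕜] X := j ∘L G
    have hGj : ∀ a, G (j a) = a := by
      intro a
      funext i
      exact hg1 i a
    have hP : P ∘L P = P := by
      ext x
      show j (G (j (G x))) = j (G x)
      rw [hGj]
    have hlam : 0 ≤ lam := by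
      haveI : Nonempty (Fin n) := ⟨⟨0, hpos⟩⟩
      have h1 := (hj1 (fun _ => 1)).trans (hj2 (fun _ => 1))
      have h2 : ‖(fun _ : Fin n => (1 : 𝕜))‖ = 1 := by
        rw [pi_norm_const, norm_one]
      rw [h2] at h1
      linarith
    have hPn : ‖P‖ ≤ lam := by
      refine ContinuousLinearMap.opNorm_le_bound _ hlam ?_
      intro x
      show ‖j (G x)‖ ≤ lam * ‖x‖
      refine (hj2 (G x)).trans (mul_le_mul_of_nonneg_left ?_ hlam)
      rw [pi_norm_le_iff_of_nonneg (norm_nonneg _)]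
      intro i
      have h1 := (g i).le_opNorm x
      have h2 : ‖g i‖ * ‖x‖ ≤ 1 * ‖x‖ := mul_le_mul_of_nonneg_right (hg2 i) (norm_nonneg _)
      show ‖g i x‖ ≤ ‖x‖
      linarith
    have hrange : LinearMap.range (P : X →ₗ[𝕜] X) = R := by
      apply le_antisymm
      · rintro _ ⟨x, rfl⟩
        exact ⟨G x, rfl⟩
      · rintro _ ⟨a, rfl⟩
        refine ⟨j a, ?_⟩
        show j (G (j a)) = j a
        rw [hGj]
    have hfr : finrank 𝕜 R = n := by
      have := e.finrank_eq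
      rw [← this]
      simp
    exact hpr n lam P R hP hrange e.finiteDimensional hfr hPn
  · intro n lam q hq1 hq2
    classical
    rcases Nat.eq_zero_or_pos n with h0 | hpos
    · subst h0
      simp only [Nat.cast_zero]
      positivity
    choose x hxq hxn using fun i : Fin n => hq2 (Pi.single i 1)
    have hxn' : ∀ i, ‖x i‖ ≤ lam := by
      intro i
      have h1 := hxn i
      have h2 : ∑ k, ‖(Pi.single i (1 : 𝕜) : Fin n → 𝕜) k‖ = 1 := by
        rw [Finset.sum_eq_single i]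
        · simp
        · intro k _ hk
          simp [Pi.single_eq_of_ne hk]
        · simp
      rw [h2, mul_one] at h1
      exact h1
    have hlam : 0 ≤ lam := (norm_nonneg _).trans (hxn' ⟨0, hpos⟩)
    let R : (Fin n → 𝕜) →L[𝕜] X := LinearMap.toContinuousLinearMap
      (Fintype.linearCombination 𝕜 x)
    have hR : ∀ a, R a = ∑ i, a i • x i := fun a => rfl
    have hqR : ∀ a, q (R a) = a := by
      intro a
      rw [hR, map_sum]
      have h1 : ∀ i, q (a i • x i) = Pi.single i (a i) := by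
        intro i
        rw [map_smul, hxq i]
        funext k
        by_cases hk : k = i
        · subst hk
          simp
        · simp [Pi.single_eq_of_ne hk]
      simp only [h1]
      exact Finset.univ_sum_single a
    let P : X →L[𝕜] X := R ∘L q
    have hP : P ∘L P = P := by
      ext z
      show R (q (R (q z))) = R (q z)
      rw [hqR]
    have hPn : ‖P‖ ≤ lam := by
      refine ContinuousLinearMap.opNorm_le_bound _ hlam ?_
      intro z
      show ‖R (q z)‖ ≤ lam * ‖z‖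
      rw [hR]
      calc ‖∑ i, q z i • x i‖ ≤ ∑ i, ‖q z i • x i‖ := norm_sum_le _ _
        _ ≤ ∑ i, ‖q z i‖ * lam := by
            refine Finset.sum_le_sum fun i _ => ?_
            rw [norm_smul]
            exact mul_le_mul_of_nonneg_left (hxn' i) (norm_nonneg _)
        _ = lam * ∑ i, ‖q z i‖ := by rw [← Finset.sum_mul, mul_comm]
        _ ≤ lam * ‖z‖ := mul_le_mul_of_nonneg_left (hq1 z) hlam
    have hRinj : Function.Injective R := by
      intro a b hab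
      rw [← hqR a, ← hqR b, hab]
    have hrange : LinearMap.range (P : X →ₗ[𝕜] X) =
        LinearMap.range (R : (Fin n → 𝕜) →ₗ[𝕜] X) := by
      apply le_antisymm
      · rintro _ ⟨z, rfl⟩
        exact ⟨q z, rfl⟩
      · rintro _ ⟨a, rfl⟩
        refine ⟨R a, ?_⟩
        show R (q (R a)) = R a
        rw [hqR]
    let e : (Fin n → 𝕜) ≃ₗ[𝕜] LinearMap.range (R : (Fin n → 𝕜) →ₗ[𝕜] X) :=
      LinearEquiv.ofInjective (R : (Fin n → 𝕜) →ₗ[𝕜] X) hRinj
    have hfr : finrank 𝕜 (LinearMap.range (R : (Fin n → 𝕜) →ₗ[𝕜] X)) = n := by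
      have := e.finrank_eq
      rw [← this]
      simp
    exact hpr n lam P _ hP hrange e.finiteDimensional hfr hPn

end Pool.Agent.Results.MP_d58ff5_an.PisierType
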