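import Pool.Agent.H57.KN.G
import Pool.Agent.H57.KN.H

/-!
# Banach spaces on which every compact operator is nuclear: the reduction to separable spaces
-/

open TopologicalSpace

namespace Pool.Agent.Results.MP_d58ff5_an.SeparableReduction

universe u v

/-- `T` is nuclear: `T x = sum_n f_n(x) y_n` with `sum_n ||f_n|| ||y_n||` finite. -/
def Nuclear {𝕜 : Type*} [RCLike 𝕜] {X : Type*} [NormedAddCommGroup X] [NormedSpace 𝕜 X]
    (T : X →L[𝕜] X) : Prop :=
  ∃ (f : ℕ → (X →L[𝕜] 𝕜)) (y : ℕ → X), Summable (fun n => ‖f n‖ * ‖y n‖) ∧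
    ∀ x : X, HasSum (fun n => (f n x) • y n) (T x)

/-- every compact operator on `X` is nuclear -/
def KN (𝕜 : Type*) [RCLike 𝕜] (X : Type*) [NormedAddCommGroup X] [NormedSpace 𝕜 X] : Prop :=
  ∀ T : X →L[𝕜] X, IsCompactOperator T → Nuclear T

/-- every compact operator on the dual of `X` is nuclear -/
def KNDual (𝕜 : Type*) [RCLike 𝕜] (X : Type*) [NormedAddCommGroup X] [NormedSpace 𝕜 X] : Prop :=
  KN 𝕜 (X →L[𝕜] 𝕜)

/-- some bounded linear operator `E : Y* → X*` sends every bounded functional on the subspace `Y`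
to an extension of it to `X` -/
def LocallyComplemented {𝕜 : Type*} [RCLike 𝕜] {X : Type*} [NormedAddCommGroup X]
    [NormedSpace 𝕜 X] (Y : Submodule 𝕜 X) : Prop :=
  ∃ E : (Y →L[𝕜] 𝕜) →L[𝕜] (X →L[𝕜] 𝕜), ∀ (f : Y →L[𝕜] 𝕜) (y : Y), E f (y : X) = f y

/-- there is an infinite-dimensional Banach space on which every compact operator is nuclear -/
def ExistsKN (𝕜 : Type v) [RCLike 𝕜] : Prop :=
  ∃ (X : Type u) (_ : NormedAddCommGroup X) (_ : NormedSpace 𝕜 X) (_ : CompleteSpace X),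
    ¬ FiniteDimensional 𝕜 X ∧ KN 𝕜 X

/-- there is an infinite-dimensional separable Banach space on which every compact operator is
nuclear -/
def ExistsSeparableKN (𝕜 : Type v) [RCLike 𝕜] : Prop :=
  ∃ (X : Type u) (_ : NormedAddCommGroup X) (_ : NormedSpace 𝕜 X) (_ : CompleteSpace X),
    SeparableSpace X ∧ ¬ FiniteDimensional 𝕜 X ∧ KN 𝕜 X

/-- there is an infinite-dimensional Banach space such that every compact operator on its dual is
nuclear -/
def ExistsKNDual (𝕜 : Type v) [RCLike 𝕜] : Prop :=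
  ∃ (X : Type u) (_ : NormedAddCommGroup X) (_ : NormedSpace 𝕜 X) (_ : CompleteSpace X),
    ¬ FiniteDimensional 𝕜 X ∧ KNDual 𝕜 X

/-- there is an infinite-dimensional separable Banach space such that every compact operator on
its dual is nuclear -/
def ExistsSeparableKNDual (𝕜 : Type v) [RCLike 𝕜] : Prop :=
  ∃ (X : Type u) (_ : NormedAddCommGroup X) (_ : NormedSpace 𝕜 X) (_ : CompleteSpace X),
    SeparableSpace X ∧ ¬ FiniteDimensional 𝕜 X ∧ KNDual 𝕜 X

/-- the size of a representation -/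
lemma nuclear_iff {𝕜 : Type*} [RCLike 𝕜] {X : Type*} [NormedAddCommGroup X] [NormedSpace 𝕜 X]
    (T : X →L[𝕜] X) : Nuclear T ↔ ∃ M : ℝ, Pool.Agent.H57.KN.NucB M T := by
  constructor
  · rintro ⟨f, y, h1, h2⟩
    exact ⟨_, f, y, h1, le_rfl, h2⟩
  · rintro ⟨M, f, y, h1, -, h2⟩
    exact ⟨f, y, h1, h2⟩

/-- subspaces with an extension operator -/
lemma sub {𝕜 : Type*} [RCLike 𝕜] {X : Type*} [NormedAddCommGroup X] [NormedSpace 𝕜 X]
    [CompleteSpace X] (h : KN 𝕜 X) (Y : Submodule 𝕜 X) (hY : IsClosed (Y : Set X))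
    (E : (Y →L[𝕜] 𝕜) →L[𝕜] (X →L[𝕜] 𝕜)) (hE : ∀ (f : Y →L[𝕜] 𝕜) (y : Y), E f (y : X) = f y) :
    KN 𝕜 Y := by
  intro T hT
  rw [nuclear_iff]
  exact Pool.Agent.H57.KN.sub (fun S hS => (nuclear_iff S).1 (h S hS)) Y hY E hE T hT

/-- duals of subspaces with an extension operator -/
lemma dualsub {𝕜 : Type*} [RCLike 𝕜] {X : Type*} [NormedAddCommGroup X] [NormedSpace 𝕜 X]
    (h : KN 𝕜 (X →L[𝕜] 𝕜)) (Y : Submodule 𝕜 X)
    (E : (Y →L[𝕜] 𝕜) →L[𝕜] (X →L[𝕜] 𝕜)) (hE : ∀ (f : Y →L[𝕜] 𝕜) (y : Y), E f (y : X) = f y) :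
    KN 𝕜 (Y →L[𝕜] 𝕜) := by
  intro T hT
  rw [nuclear_iff]
  exact Pool.Agent.H57.KN.dualsub (fun S hS => (nuclear_iff S).1 (h S hS)) Y E hE T hT

/-- separable subspaces -/
lemma separable (𝕜 : Type*) [RCLike 𝕜] {X : Type*} [NormedAddCommGroup X] [NormedSpace 𝕜 X]
    [CompleteSpace X] (Z : Set X) (hZ : IsSeparable Z) :
    ∃ Y : Submodule 𝕜 X, IsClosed (Y : Set X) ∧ IsSeparable (Y : Set X) ∧ Z ⊆ Y ∧
      (KN 𝕜 X → KN 𝕜 Y) ∧ (KNDual 𝕜 X → KNDual 𝕜 Y) := by
  obtain ⟨Y, hYc, hZY, hYs, E, hE⟩ := Pool.Agent.H57.KN.exists_ext (𝕜 := 𝕜) Z hZ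
  exact ⟨Y, hYc, hYs, hZY, fun h => sub h Y hYc E hE, fun h => dualsub h Y E hE⟩

/-- infinite-dimensional separable subspaces -/
lemma separable_inf (𝕜 : Type*) [RCLike 𝕜] {X : Type*} [NormedAddCommGroup X] [NormedSpace 𝕜 X]
    [CompleteSpace X] (hX : ¬ FiniteDimensional 𝕜 X) :
    ∃ Y : Submodule 𝕜 X, IsClosed (Y : Set X) ∧ IsSeparable (Y : Set X) ∧
      ¬ FiniteDimensional 𝕜 Y ∧ (KN 𝕜 X → KN 𝕜 Y) ∧ (KNDual 𝕜 X → KNDual 𝕜 Y) := by
  have hinf : Infinite (Module.Basis.ofVectorSpaceIndex 𝕜 X) := by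
    by_contra hfin
    rw [not_infinite_iff_finite] at hfin
    exact hX (Module.Basis.ofVectorSpace 𝕜 X).finiteDimensional_of_finite
  have hli := (Module.Basis.ofVectorSpace 𝕜 X).linearIndependent.comp
    (Infinite.natEmbedding (Module.Basis.ofVectorSpaceIndex 𝕜 X))
    (Infinite.natEmbedding (Module.Basis.ofVectorSpaceIndex 𝕜 X)).injective
  obtain ⟨b, hb⟩ : ∃ b : ℕ → X, LinearIndependent 𝕜 b := ⟨_, hli⟩
  obtain ⟨Y, hYc, hYs, hbY, h1, h2⟩ :=
    separable 𝕜 (Set.range b) (Set.countable_range b).isSeparable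
  refine ⟨Y, hYc, hYs, ?_, h1, h2⟩
  intro hfin
  have h1 : LinearIndependent 𝕜 (fun n => (⟨b n, hbY ⟨n, rfl⟩⟩ : Y)) :=
    LinearIndependent.of_comp Y.subtype hb
  exact not_finite_iff_infinite.2 inferInstance h1.finite

/-- Let `X` be a Banach space. (1) Suppose that every compact operator on `X` is nuclear, and let
`Y` be a closed subspace such that some bounded linear operator sends every bounded functional on
`Y` to an extension of it to `X`; then every compact operator on `Y` is nuclear. (2) Every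
separable subset of `X` lies in a closed separable subspace `Y` such that: if every compact
operator on `X` is nuclear, then every compact operator on `Y` is nuclear; and if every compact
operator on the dual of `X` is nuclear, then every compact operator on the dual of `Y` is nuclear.
(3) There is an infinite-dimensional Banach space on which every compact operator is nuclear if
and only if there is a separable one. (4) There is an infinite-dimensional Banach space such that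
every compact operator on its dual is nuclear if and only if there is a separable one. -/
theorem result (𝕜 : Type v) [RCLike 𝕜] :
    (∀ (X : Type u) [NormedAddCommGroup X] [NormedSpace 𝕜 X] [CompleteSpace X],
      (KN 𝕜 X → ∀ Y : Submodule 𝕜 X, IsClosed (Y : Set X) → LocallyComplemented Y → KN 𝕜 Y) ∧
      (∀ Z : Set X, IsSeparable Z →
        ∃ Y : Submodule 𝕜 X, IsClosed (Y : Set X) ∧ IsSeparable (Y : Set X) ∧ Z ⊆ Y ∧
          (KN 𝕜 X → KN 𝕜 Y) ∧ (KNDual 𝕜 X → KNDual 𝕜 Y))) ∧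
    (ExistsKN.{u} 𝕜 ↔ ExistsSeparableKN.{u} 𝕜) ∧
    (ExistsKNDual.{u} 𝕜 ↔ ExistsSeparableKNDual.{u} 𝕜) := by
  refine ⟨?_, ⟨?_, ?_⟩, ?_, ?_⟩
  · intro X _ _ _
    refine ⟨?_, fun Z hZ => separable 𝕜 Z hZ⟩
    rintro h Y hY ⟨E, hE⟩
    exact sub h Y hY E hE
  · rintro ⟨X, i1, i2, i3, hX, h⟩
    obtain ⟨Y, hYc, hYs, hY, h1, -⟩ := separable_inf 𝕜 hX
    exact ⟨Y, inferInstance, inferInstance, hYc.completeSpace_coe, hYs.separableSpace, hY, h1 h⟩
  · rintro ⟨X, i1, i2, i3, -, hX, h⟩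
    exact ⟨X, i1, i2, i3, hX, h⟩
  · rintro ⟨X, i1, i2, i3, hX, h⟩
    obtain ⟨Y, hYc, hYs, hY, -, h2⟩ := separable_inf 𝕜 hX
    exact ⟨Y, inferInstance, inferInstance, hYc.completeSpace_coe, hYs.separableSpace, hY, h2 h⟩
  · rintro ⟨X, i1, i2, i3, -, hX, h⟩
    exact ⟨X, i1, i2, i3, hX, h⟩

end Pool.Agent.Results.MP_d58ff5_an.SeparableReduction
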